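import Mathlib

set_option autoImplicit false
set_option linter.unusedSectionVars false

namespace Pool.Agent.Lib.MP_172ed5_co

open Matrix

variable {V : Type*} [Fintype V] [DecidableEq V]

/-- Subadditivity of the rank. -/
lemma rank_add_le' {W : Type*} [Fintype W] (A B : Matrix V W (ZMod 2)) :
    (A + B).rank ≤ A.rank + B.rank := by
  unfold Matrix.rank
  have h : (A + B).mulVecLin.range ≤ A.mulVecLin.range ⊔ B.mulVecLin.range := by
    rintro x ⟨w, rfl⟩
    rw [Matrix.mulVecLin_add]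
    exact Submodule.add_mem_sup ⟨w, rfl⟩ ⟨w, rfl⟩
  exact (Submodule.finrank_mono h).trans (Submodule.finrank_add_le_finrank_add_finrank _ _)

lemma sq_eq_self (a : ZMod 2) : a * a = a := by revert a; decide

/-- dot product is symmetric w.r.t. a symmetric matrix -/
lemma dot_symm {M : Matrix V V (ZMod 2)} (hM : M.IsSymm) (x y : V → ZMod 2) :
    x ⬝ᵥ (M *ᵥ y) = y ⬝ᵥ (M *ᵥ x) := by
  rw [Matrix.dotProduct_mulVec, ← Matrix.mulVec_transpose, hM.eq, dotProduct_comm]

/-- `M - (Mz)(Mz)^T` -/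
def reduce1 (M : Matrix V V (ZMod 2)) (z : V → ZMod 2) : Matrix V V (ZMod 2) :=
  M + Matrix.vecMulVec (M *ᵥ z) (M *ᵥ z)

lemma reduce1_symm {M : Matrix V V (ZMod 2)} (hM : M.IsSymm) (z : V → ZMod 2) :
    (reduce1 M z).IsSymm := by
  unfold reduce1
  apply Matrix.IsSymm.add hM
  ext i j
  simp [Matrix.vecMulVec_apply, mul_comm]

lemma reduce1_mulVec (M : Matrix V V (ZMod 2)) (z w : V → ZMod 2) :
    (reduce1 M z) *ᵥ w = M *ᵥ w + ((M *ᵥ z) ⬝ᵥ w) • (M *ᵥ z) := by
  unfold reduce1
  rw [Matrix.add_mulVec]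
  congr 1
  ext i
  simp [Matrix.mulVec, Matrix.vecMulVec_apply, dotProduct, Finset.mul_sum, mul_comm, mul_left_comm]

lemma zmod2_add_self (a : ZMod 2) : a + a = 0 := by revert a; decide

lemma reduce1_rank {M : Matrix V V (ZMod 2)} (hM : M.IsSymm) {z : V → ZMod 2}
    (hz : z ⬝ᵥ (M *ᵥ z) = 1) : (reduce1 M z).rank + 1 ≤ M.rank := by
  have hlt : (reduce1 M z).mulVecLin.range < M.mulVecLin.range := by
    refine lt_of_le_of_ne ?_ ?_
    · rintro x ⟨w, rfl⟩
      refine ⟨w + ((M *ᵥ z) ⬝ᵥ w) • z, ?_⟩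
      simp only [Matrix.mulVecLin_apply]
      rw [reduce1_mulVec, Matrix.mulVec_add, Matrix.mulVec_smul]
    · intro heq
      have h1 : M *ᵥ z ∈ M.mulVecLin.range := ⟨z, rfl⟩
      rw [← heq] at h1
      obtain ⟨w, hw⟩ := h1
      simp only [Matrix.mulVecLin_apply] at hw
      have h2 : z ⬝ᵥ ((reduce1 M z) *ᵥ w) = 0 := by
        rw [reduce1_mulVec, dotProduct_add, dotProduct_smul, hz, dot_symm hM z w,
          dotProduct_comm (M *ᵥ z) w]
        simp [zmod2_add_self]
      rw [hw, hz] at h2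
      exact one_ne_zero h2
  exact Submodule.finrank_lt_finrank_of_lt hlt

/-- alternating reduction -/
def reduce2 (M : Matrix V V (ZMod 2)) (x y : V → ZMod 2) : Matrix V V (ZMod 2) :=
  M + (Matrix.vecMulVec (M *ᵥ x) (M *ᵥ y) + Matrix.vecMulVec (M *ᵥ y) (M *ᵥ x))

lemma reduce2_symm {M : Matrix V V (ZMod 2)} (hM : M.IsSymm) (x y : V → ZMod 2) :
    (reduce2 M x y).IsSymm := by
  unfold reduce2
  apply Matrix.IsSymm.add hM
  ext i j
  simp [Matrix.vecMulVec_apply, mul_comm, add_comm]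

lemma reduce2_diag {M : Matrix V V (ZMod 2)} (hd : ∀ i, M i i = 0) (x y : V → ZMod 2) (i : V) :
    (reduce2 M x y) i i = 0 := by
  unfold reduce2
  simp [Matrix.vecMulVec_apply, hd, mul_comm, zmod2_add_self]

lemma reduce2_mulVec (M : Matrix V V (ZMod 2)) (x y w : V → ZMod 2) :
    (reduce2 M x y) *ᵥ w = M *ᵥ w + (((M *ᵥ y) ⬝ᵥ w) • (M *ᵥ x) + ((M *ᵥ x) ⬝ᵥ w) • (M *ᵥ y)) := by
  unfold reduce2
  rw [Matrix.add_mulVec, Matrix.add_mulVec]
  congr 1
  congr 1 <;>
  · ext i
    simp [Matrix.mulVec, Matrix.vecMulVec_apply, dotProduct, Finset.mul_sum, mul_comm, mul_left_comm]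

/-- A symmetric matrix with zero diagonal is alternating. -/
lemma alt_quad {M : Matrix V V (ZMod 2)} (hM : M.IsSymm) (hd : ∀ i, M i i = 0) (x : V → ZMod 2) :
    x ⬝ᵥ (M *ᵥ x) = 0 := by
  have h : x ⬝ᵥ (M *ᵥ x) = ∑ i, ∑ j, x i * (M i j * x j) := by
    simp [dotProduct, Matrix.mulVec, Finset.mul_sum]
  rw [h, ← Finset.sum_product', Finset.univ_product_univ]
  apply Finset.sum_involution (fun p _ => (p.2, p.1))
  · rintro ⟨i, j⟩ _
    have : M j i = M i j := hM.apply i j
    simp only [this]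
    have h2 : x j * (M i j * x i) = x i * (M i j * x j) := by ring
    rw [h2]
    exact zmod2_add_self _
  · rintro ⟨i, j⟩ _ hne heq
    simp only [Prod.mk.injEq] at heq
    obtain ⟨h1, h2⟩ := heq
    subst h1
    simp [hd] at hne
  · intro a _
    simp
  · intro a _
    simp

lemma reduce2_rank_le {M : Matrix V V (ZMod 2)} (hM : M.IsSymm) (hd : ∀ i, M i i = 0)
    {x y : V → ZMod 2} (hxy : x ⬝ᵥ (M *ᵥ y) = 1) : (reduce2 M x y).rank + 2 ≤ M.rank := by
  set R := M.mulVecLin.range with hR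
  set R' := (reduce2 M x y).mulVecLin.range with hR'
  -- the functional x . w
  let fx : (V → ZMod 2) →ₗ[ZMod 2] ZMod 2 := (dotProductBilin (ZMod 2) (ZMod 2) (m := V)) x
  let fy : (V → ZMod 2) →ₗ[ZMod 2] ZMod 2 := (dotProductBilin (ZMod 2) (ZMod 2) (m := V)) y
  have hfx : ∀ w, fx w = x ⬝ᵥ w := fun w => rfl
  have hfy : ∀ w, fy w = y ⬝ᵥ w := fun w => rfl
  have hyx : y ⬝ᵥ (M *ᵥ x) = 1 := by rw [dot_symm hM]; exact hxy
  have h1 : R' ≤ (R ⊓ LinearMap.ker fx) ⊓ LinearMap.ker fy := by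
    rintro u ⟨w, rfl⟩
    refine ⟨⟨?_, ?_⟩, ?_⟩
    · refine ⟨w + (((M *ᵥ y) ⬝ᵥ w) • x + ((M *ᵥ x) ⬝ᵥ w) • y), ?_⟩
      simp only [Matrix.mulVecLin_apply]
      rw [reduce2_mulVec, Matrix.mulVec_add, Matrix.mulVec_add, Matrix.mulVec_smul,
        Matrix.mulVec_smul]
    · simp only [SetLike.mem_coe, LinearMap.mem_ker, Matrix.mulVecLin_apply]
      rw [hfx, reduce2_mulVec, dotProduct_add, dotProduct_add, dotProduct_smul, dotProduct_smul,
        hxy, alt_quad hM hd x, dot_symm hM x w, dotProduct_comm (M *ᵥ x) w]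
      simp [zmod2_add_self]
    · simp only [SetLike.mem_coe, LinearMap.mem_ker, Matrix.mulVecLin_apply]
      rw [hfy, reduce2_mulVec, dotProduct_add, dotProduct_add, dotProduct_smul, dotProduct_smul,
        hyx, alt_quad hM hd y, dot_symm hM y w, dotProduct_comm (M *ᵥ y) w]
      simp [zmod2_add_self]
  have h2 : (R ⊓ LinearMap.ker fx) ⊓ LinearMap.ker fy < R ⊓ LinearMap.ker fx := by
    refine lt_of_le_of_ne inf_le_left ?_
    intro heq
    have hmem : M *ᵥ x ∈ R ⊓ LinearMap.ker fx := by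
      refine ⟨⟨x, rfl⟩, ?_⟩
      simp only [SetLike.mem_coe, LinearMap.mem_ker]
      rw [hfx]; exact alt_quad hM hd x
    rw [← heq] at hmem
    have := hmem.2
    simp only [SetLike.mem_coe, LinearMap.mem_ker] at this
    rw [hfy, hyx] at this
    exact one_ne_zero this
  have h3 : R ⊓ LinearMap.ker fx < R := by
    refine lt_of_le_of_ne inf_le_left ?_
    intro heq
    have hmem : M *ᵥ y ∈ R := ⟨y, rfl⟩
    rw [← heq] at hmem
    have := hmem.2
    simp only [SetLike.mem_coe, LinearMap.mem_ker] at this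
    rw [hfx, hxy] at this
    exact one_ne_zero this
  have e1 := Submodule.finrank_mono h1
  have e2 := Submodule.finrank_lt_finrank_of_lt h2
  have e3 := Submodule.finrank_lt_finrank_of_lt h3
  unfold Matrix.rank
  rw [← hR, ← hR']
  omega

lemma reduce2_rank_ge (M : Matrix V V (ZMod 2)) (x y : V → ZMod 2) :
    M.rank ≤ (reduce2 M x y).rank + 2 := by
  have h : M = reduce2 M x y +
      (Matrix.vecMulVec (M *ᵥ x) (M *ᵥ y) + Matrix.vecMulVec (M *ᵥ y) (M *ᵥ x)) := by
    unfold reduce2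
    ext i j
    simp only [Matrix.add_apply]
    have := zmod2_add_self (Matrix.vecMulVec (M *ᵥ x) (M *ᵥ y) i j +
      Matrix.vecMulVec (M *ᵥ y) (M *ᵥ x) i j)
    rw [add_assoc, this, add_zero]
  calc M.rank = (reduce2 M x y +
      (Matrix.vecMulVec (M *ᵥ x) (M *ᵥ y) + Matrix.vecMulVec (M *ᵥ y) (M *ᵥ x))).rank := by
        rw [← h]
    _ ≤ (reduce2 M x y).rank + (Matrix.vecMulVec (M *ᵥ x) (M *ᵥ y) +
        Matrix.vecMulVec (M *ᵥ y) (M *ᵥ x)).rank := rank_add_le' _ _
    _ ≤ (reduce2 M x y).rank + ((Matrix.vecMulVec (M *ᵥ x) (M *ᵥ y)).rank +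
        (Matrix.vecMulVec (M *ᵥ y) (M *ᵥ x)).rank) := by
        gcongr
        exact rank_add_le' _ _
    _ ≤ (reduce2 M x y).rank + (1 + 1) := by
        gcongr <;> exact Matrix.rank_vecMulVec_le _ _
    _ = _ := by ring

lemma zmod2_ne_zero {a : ZMod 2} (h : a ≠ 0) : a = 1 := by revert a; decide

lemma zmod2_ne_one {a : ZMod 2} (h : a ≠ 1) : a = 0 := by revert a; decide

lemma rank_eq_zero_imp {M : Matrix V V (ZMod 2)} (h : M.rank = 0) : M = 0 := by
  unfold Matrix.rank at h
  rw [Submodule.finrank_eq_zero, LinearMap.range_eq_bot] at h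
  ext i j
  have h1 := congrFun (LinearMap.congr_fun h (Pi.single j 1)) i
  simpa using h1

lemma quad_single (M : Matrix V V (ZMod 2)) (i j : V) :
    (Pi.single i 1 : V → ZMod 2) ⬝ᵥ (M *ᵥ (Pi.single j 1)) = M i j := by
  simp

/-- Alternating matrices over `F_2` have even rank. -/
lemma alt_rank_even : ∀ (r : ℕ) (M : Matrix V V (ZMod 2)), M.IsSymm → (∀ i, M i i = 0) →
    M.rank = r → Even r := by
  intro r
  induction r using Nat.strong_induction_on with
  | _ r ih =>
    intro M hM hd hr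
    by_cases h0 : M = 0
    · subst h0
      rw [Matrix.rank_zero] at hr
      subst hr
      exact Even.zero
    · have : ∃ i j, M i j ≠ 0 := by
        by_contra hcon
        push Not at hcon
        exact h0 (by ext i j; simpa using hcon i j)
      obtain ⟨i, j, hij⟩ := this
      have hxy : (Pi.single i 1 : V → ZMod 2) ⬝ᵥ (M *ᵥ (Pi.single j 1)) = 1 := by
        rw [quad_single]; exact zmod2_ne_zero hij
      have h1 := reduce2_rank_le hM hd hxy
      have h2 := reduce2_rank_ge M (Pi.single i 1) (Pi.single j 1)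
      have h3 := ih ((reduce2 M (Pi.single i 1) (Pi.single j 1)).rank) (by omega) _
        (reduce2_symm hM _ _) (reduce2_diag hd _ _) rfl
      have h4 : r = (reduce2 M (Pi.single i 1) (Pi.single j 1)).rank + 2 := by omega
      rw [h4]
      exact h3.add (by decide)

/-- Non-alternating symmetric matrices over `F_2` of rank at most `r` factor as `A Aᵀ`. -/
lemma nonalt_factor : ∀ (r : ℕ) (M : Matrix V V (ZMod 2)), M.IsSymm →
    (M = 0 ∨ ∃ z : V → ZMod 2, z ⬝ᵥ (M *ᵥ z) = 1) → M.rank ≤ r →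
    ∃ A : Matrix V (Fin r) (ZMod 2), M = A * Aᵀ := by
  intro r
  induction r with
  | zero =>
    intro M _ _ hr
    have : M = 0 := rank_eq_zero_imp (by omega)
    subst this
    refine ⟨0, ?_⟩
    simp
  | succ r ih =>
    intro M hM hz hr
    rcases hz with h0 | ⟨z, hz⟩
    · subst h0
      exact ⟨0, by simp⟩
    · -- find good z'
      have key : ∃ z' : V → ZMod 2, z' ⬝ᵥ (M *ᵥ z') = 1 ∧
          (reduce1 M z' = 0 ∨ ∃ w : V → ZMod 2, w ⬝ᵥ ((reduce1 M z') *ᵥ w) = 1) := by
        by_cases hc : reduce1 M z = 0 ∨ ∃ w : V → ZMod 2, w ⬝ᵥ ((reduce1 M z) *ᵥ w) = 1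
        · exact ⟨z, hz, hc⟩
        · push Not at hc
          obtain ⟨hne, halt⟩ := hc
          have halt' : ∀ w, w ⬝ᵥ ((reduce1 M z) *ᵥ w) = 0 := fun w => zmod2_ne_one (halt w)
          have : ∃ i j, (reduce1 M z) i j ≠ 0 := by
            by_contra hcon
            push Not at hcon
            exact hne (by ext i j; simpa using hcon i j)
          obtain ⟨i, j, hij⟩ := this
          have hquad : ∀ u v : V → ZMod 2, u ⬝ᵥ ((reduce1 M z) *ᵥ v) =
              u ⬝ᵥ (M *ᵥ v) + (z ⬝ᵥ (M *ᵥ v)) * (z ⬝ᵥ (M *ᵥ u)) := by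
            intro u v
            rw [reduce1_mulVec, dotProduct_add, dotProduct_smul, smul_eq_mul]
            rw [dot_symm hM u z, dotProduct_comm (M *ᵥ z) v, dot_symm hM v z]
          -- adjust the vectors to be orthogonal to z
          set a : V → ZMod 2 := Pi.single i 1 with ha
          set b : V → ZMod 2 := Pi.single j 1 with hb
          have hab : a ⬝ᵥ ((reduce1 M z) *ᵥ b) = 1 := by
            rw [ha, hb, quad_single]; exact zmod2_ne_zero hij
          set x : V → ZMod 2 := a + (z ⬝ᵥ (M *ᵥ a)) • z with hx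
          set y : V → ZMod 2 := b + (z ⬝ᵥ (M *ᵥ b)) • z with hy
          have hzx : z ⬝ᵥ (M *ᵥ x) = 0 := by
            rw [hx, Matrix.mulVec_add, Matrix.mulVec_smul, dotProduct_add, dotProduct_smul, hz]
            simp [zmod2_add_self]
          have hzy : z ⬝ᵥ (M *ᵥ y) = 0 := by
            rw [hy, Matrix.mulVec_add, Matrix.mulVec_smul, dotProduct_add, dotProduct_smul, hz]
            simp [zmod2_add_self]
          have hzero : ∀ u, (reduce1 M z) *ᵥ (z) = 0 ∧ u ⬝ᵥ ((reduce1 M z) *ᵥ z) = 0 := by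
            intro u
            have : (reduce1 M z) *ᵥ z = 0 := by
              rw [reduce1_mulVec, dotProduct_comm, hz, one_smul]
              ext k
              simp [zmod2_add_self]
            exact ⟨this, by rw [this, dotProduct_zero]⟩
          have hxy : x ⬝ᵥ (M *ᵥ y) = 1 := by
            have e1 := hquad x y
            rw [hzx, hzy, mul_zero, add_zero] at e1
            rw [← e1]
            have e2 : (reduce1 M z) *ᵥ y = (reduce1 M z) *ᵥ b := by
              rw [hy, Matrix.mulVec_add, Matrix.mulVec_smul, (hzero 0).1, smul_zero, add_zero]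
            rw [e2, hx, add_dotProduct, smul_dotProduct, hab]
            have e3 : z ⬝ᵥ ((reduce1 M z) *ᵥ b) = 0 := by
              rw [dot_symm (reduce1_symm hM z)]; exact (hzero b).2
            rw [e3, smul_zero, add_zero]
          have hxx : x ⬝ᵥ (M *ᵥ x) = 0 := by
            have e1 := hquad x x
            rw [hzx, mul_zero, add_zero, halt'] at e1
            exact e1.symm
          have hyy : y ⬝ᵥ (M *ᵥ y) = 0 := by
            have e1 := hquad y y
            rw [hzy, mul_zero, add_zero, halt'] at e1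
            exact e1.symm
          have hxz : x ⬝ᵥ (M *ᵥ z) = 0 := by rw [dot_symm hM]; exact hzx
          have hyz : y ⬝ᵥ (M *ᵥ z) = 0 := by rw [dot_symm hM]; exact hzy
          have hyx : y ⬝ᵥ (M *ᵥ x) = 1 := by rw [dot_symm hM]; exact hxy
          refine ⟨z + x, ?_, Or.inr ⟨y, ?_⟩⟩
          · have e0 : (z + x) ⬝ᵥ (M *ᵥ (z + x)) = z ⬝ᵥ (M *ᵥ z) + x ⬝ᵥ (M *ᵥ z) +
                (z ⬝ᵥ (M *ᵥ x) + x ⬝ᵥ (M *ᵥ x)) := by
              rw [Matrix.mulVec_add, dotProduct_add, add_dotProduct z x (M *ᵥ z),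
                add_dotProduct z x (M *ᵥ x)]
            rw [e0, hz, hxz, hzx, hxx]
            simp
          · rw [reduce1_mulVec, dotProduct_add, dotProduct_smul, hyy,
              dotProduct_comm (M *ᵥ (z + x)) y]
            have : y ⬝ᵥ (M *ᵥ (z + x)) = 1 := by
              rw [Matrix.mulVec_add, dotProduct_add, hyz, hyx, zero_add]
            rw [this]
            simp
      obtain ⟨z', hz', hred⟩ := key
      have hrank := reduce1_rank hM hz'
      obtain ⟨A, hA⟩ := ih (reduce1 M z') (reduce1_symm hM z') hred (by omega)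
      refine ⟨Matrix.of (fun v => Fin.cons ((M *ᵥ z') v) (A v)), ?_⟩
      ext u v
      have h1 : (reduce1 M z') u v = (A * Aᵀ) u v := by rw [hA]
      unfold reduce1 at h1
      rw [Matrix.add_apply, Matrix.vecMulVec_apply, Matrix.mul_apply] at h1
      rw [Matrix.mul_apply, Fin.sum_univ_succ]
      simp only [Matrix.of_apply, Matrix.transpose_apply, Fin.cons_zero, Fin.cons_succ] at h1 ⊢
      rw [← h1, add_comm, add_assoc, zmod2_add_self, add_zero]

end Pool.Agent.Lib.MP_172ed5_co
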