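import Mathlib
import Pool.Agent.Lib.MP_172ed5_co.Alg

set_option autoImplicit false
set_option linter.unusedSectionVars false

namespace Pool.Agent.Lib.MP_172ed5_co

open Matrix

/-- tournament -/
def IsTour {V : Type} (D : V → V → Prop) : Prop :=
  (∀ u, ¬ D u u) ∧ ∀ u v, u ≠ v → (D u v ↔ ¬ D v u)

/-- numbers of inversions that make `D` acyclic. -/
def InvSet {V : Type} [DecidableEq V] (D : V → V → Prop) : Set ℕ :=
  {k : ℕ | ∃ X : Fin k → Finset V, ∃ f : V → ℕ, ∀ u v,
        ((D u v ∧ Even (Finset.univ.filter (fun i => u ∈ X i ∧ v ∈ X i)).card) ∨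
         (D v u ∧ Odd (Finset.univ.filter (fun i => u ∈ X i ∧ v ∈ X i)).card)) → f u < f v}

/-- ranks in the definition of the tournament minimum rank. -/
def TmrSet {V : Type} [DecidableEq V] [Fintype V] (D : V → V → Prop) : Set ℕ :=
  {r : ℕ | ∃ f : V → ℕ, Function.Injective f ∧
          ∃ M : Matrix V V (ZMod 2), M.IsSymm ∧
            (∀ u v, u ≠ v → (M u v = 1 ↔ ((D u v ∧ f v < f u) ∨ (D v u ∧ f u < f v)))) ∧
            M.rank = r}

variable {V : Type} [Fintype V] [DecidableEq V]

lemma cast_card_eq {k : ℕ} (X : Fin k → Finset V) (u v : V) :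
    (((Finset.univ.filter (fun i => u ∈ X i ∧ v ∈ X i)).card : ℕ) : ZMod 2) =
    ((Matrix.of (fun (w : V) (i : Fin k) => if w ∈ X i then (1 : ZMod 2) else 0)) *
      (Matrix.of (fun (w : V) (i : Fin k) => if w ∈ X i then (1 : ZMod 2) else 0))ᵀ) u v := by
  rw [Matrix.mul_apply]
  simp only [Matrix.of_apply, Matrix.transpose_apply]
  rw [Finset.card_filter]
  push_cast
  apply Finset.sum_congr rfl
  intro i _
  by_cases h1 : u ∈ X i <;> by_cases h2 : v ∈ X i <;> simp [h1, h2]

lemma zmod2_cast_odd (n : ℕ) : ((n : ZMod 2) = 1) ↔ Odd n := by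
  rw [ZMod.natCast_eq_one_iff_odd]

lemma zmod2_cast_even (n : ℕ) : ((n : ZMod 2) = 0) ↔ Even n := by
  rw [ZMod.natCast_eq_zero_iff_even]

/-- Lemma A: each number of inversions bounds the rank. -/
lemma inv_to_tmr {D : V → V → Prop} (hD : IsTour D) {k : ℕ} (hk : k ∈ InvSet D) :
    ∃ r ≤ k, r ∈ TmrSet D := by
  obtain ⟨X, f, hf⟩ := hk
  set A : Matrix V (Fin k) (ZMod 2) :=
    Matrix.of (fun (w : V) (i : Fin k) => if w ∈ X i then (1 : ZMod 2) else 0) with hA
  refine ⟨(A * Aᵀ).rank, ?_, f, ?_, A * Aᵀ, ?_, ?_, rfl⟩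
  · calc (A * Aᵀ).rank ≤ A.rank := Matrix.rank_mul_le_left _ _
      _ ≤ Fintype.card (Fin k) := Matrix.rank_le_card_width _
      _ = k := by simp
  · intro u v huv
    by_contra hne
    have hc : Even (Finset.univ.filter (fun i => u ∈ X i ∧ v ∈ X i)).card ∨
      Odd (Finset.univ.filter (fun i => u ∈ X i ∧ v ∈ X i)).card := Nat.even_or_odd _
    have hsym : (Finset.univ.filter (fun i => v ∈ X i ∧ u ∈ X i)) =
      (Finset.univ.filter (fun i => u ∈ X i ∧ v ∈ X i)) := by
      ext i; simp [and_comm]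
    by_cases hduv : D u v
    · rcases hc with h | h
      · have := hf u v (Or.inl ⟨hduv, h⟩); omega
      · have := hf v u (Or.inr ⟨hduv, by rw [hsym]; exact h⟩); omega
    · have hdvu : D v u := by
        by_contra hcon
        exact hduv ((hD.2 u v hne).2 hcon)
      rcases hc with h | h
      · have := hf v u (Or.inl ⟨hdvu, by rw [hsym]; exact h⟩); omega
      · have := hf u v (Or.inr ⟨hdvu, h⟩); omega
  · rw [Matrix.IsSymm, Matrix.transpose_mul, Matrix.transpose_transpose]
  · intro u v hne
    rw [hA, ← cast_card_eq, zmod2_cast_odd]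
    have hsym : (Finset.univ.filter (fun i => v ∈ X i ∧ u ∈ X i)) =
      (Finset.univ.filter (fun i => u ∈ X i ∧ v ∈ X i)) := by
      ext i; simp [and_comm]
    constructor
    · intro hodd
      by_cases hduv : D u v
      · exact Or.inl ⟨hduv, hf v u (Or.inr ⟨hduv, by rw [hsym]; exact hodd⟩)⟩
      · have hdvu : D v u := by
          by_contra hcon
          exact hduv ((hD.2 u v hne).2 hcon)
        exact Or.inr ⟨hdvu, hf u v (Or.inr ⟨hdvu, hodd⟩)⟩
    · intro h
      by_contra hnodd
      have hev : Even (Finset.univ.filter (fun i => u ∈ X i ∧ v ∈ X i)).card := by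
        rcases Nat.even_or_odd (Finset.univ.filter (fun i => u ∈ X i ∧ v ∈ X i)).card with h | h
        · exact h
        · exact absurd h hnodd
      rcases h with ⟨hd, hlt⟩ | ⟨hd, hlt⟩
      · have := hf u v (Or.inl ⟨hd, hev⟩); omega
      · have := hf v u (Or.inl ⟨hd, by rw [hsym]; exact hev⟩); omega

/-- Lemma B': a factorised matrix gives inversions. -/
lemma factor_to_inv {D : V → V → Prop} (hD : IsTour D) {k : ℕ} {f : V → ℕ}
    (hf : Function.Injective f) {M : Matrix V V (ZMod 2)}
    (hM : ∀ u v, u ≠ v → (M u v = 1 ↔ ((D u v ∧ f v < f u) ∨ (D v u ∧ f u < f v))))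
    (A : Matrix V (Fin k) (ZMod 2)) (hA : M = A * Aᵀ) : k ∈ InvSet D := by
  refine ⟨fun i => Finset.univ.filter (fun w => A w i = 1), f, ?_⟩
  intro u v h
  have hne : u ≠ v := by
    rintro rfl
    rcases h with ⟨h, _⟩ | ⟨h, _⟩ <;> exact hD.1 u h
  have hAA : (Matrix.of (fun (w : V) (i : Fin k) =>
      if w ∈ (fun i => Finset.univ.filter (fun w => A w i = 1)) i then (1 : ZMod 2) else 0)) = A := by
    ext w i
    simp only [Finset.mem_filter, Finset.mem_univ, true_and, Matrix.of_apply]
    by_cases h1 : A w i = 1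
    · simp [h1]
    · rw [if_neg h1, zmod2_ne_one h1]
  have hcast := cast_card_eq (fun i => Finset.univ.filter (fun w => A w i = 1)) u v
  rw [hAA, ← hA] at hcast
  have hfne : f u ≠ f v := fun h => hne (hf h)
  rcases h with ⟨hd, hev⟩ | ⟨hd, hodd⟩
  · have h0 : M u v = 0 := by
      rw [← hcast, zmod2_cast_even]; exact hev
    by_contra hcon
    have h1 : M u v = 1 := (hM u v hne).2 (Or.inl ⟨hd, by omega⟩)
    rw [h0] at h1
    exact zero_ne_one h1
  · have h0 : M u v = 1 := by
      rw [← hcast, zmod2_cast_odd]; exact hodd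
    rcases (hM u v hne).1 h0 with ⟨h1, _⟩ | ⟨_, h1⟩
    · exact absurd hd ((hD.2 u v hne).1 h1)
    · exact h1

/-- the tmr-set is nonempty. -/
lemma tmr_nonempty {D : V → V → Prop} (hD : IsTour D) : (TmrSet D).Nonempty := by
  classical
  obtain ⟨f, hf⟩ : ∃ f : V → ℕ, Function.Injective f := by
    exact ⟨fun v => ((Fintype.equivFin V) v : ℕ), fun a b h =>
      (Fintype.equivFin V).injective (Fin.ext h)⟩
  refine ⟨_, f, hf, Matrix.of (fun u v => if (D u v ∧ f v < f u) ∨ (D v u ∧ f u < f v) then 1 else 0),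
    ?_, ?_, rfl⟩
  · ext u v
    simp only [Matrix.transpose_apply, Matrix.of_apply]
    congr 1
    rw [eq_iff_iff]
    tauto
  · intro u v hne
    simp only [Matrix.of_apply]
    split_ifs with h <;> simp [h]

/-- If the optimal matrix is non-alternating then `inv = tmr`. -/
lemma inv_eq_tmr_of_nonalt {D : V → V → Prop} (hD : IsTour D) {t : ℕ} (ht : sInf (TmrSet D) = t)
    {f : V → ℕ} (hf : Function.Injective f) {M : Matrix V V (ZMod 2)} (hs : M.IsSymm)
    (hM : ∀ u v, u ≠ v → (M u v = 1 ↔ ((D u v ∧ f v < f u) ∨ (D v u ∧ f u < f v))))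
    (hr : M.rank ≤ t) (hna : M = 0 ∨ ∃ z : V → ZMod 2, z ⬝ᵥ (M *ᵥ z) = 1) :
    sInf (InvSet D) = sInf (TmrSet D) := by
  obtain ⟨A, hA⟩ := nonalt_factor t M hs hna hr
  have h1 : t ∈ InvSet D := factor_to_inv hD hf hM A hA
  apply le_antisymm
  · rw [ht]; exact Nat.sInf_le h1
  · have h2 : sInf (InvSet D) ∈ InvSet D := Nat.sInf_mem ⟨t, h1⟩
    obtain ⟨r, hr, hr2⟩ := inv_to_tmr hD h2
    exact (Nat.sInf_le hr2).trans hr

/-- odd tmr implies inv = tmr -/
lemma inv_eq_tmr_of_odd {D : V → V → Prop} (hD : IsTour D) (ht : Odd (sInf (TmrSet D))) :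
    sInf (InvSet D) = sInf (TmrSet D) := by
  obtain ⟨f, hf, M, hs, hM, hr⟩ := Nat.sInf_mem (tmr_nonempty hD)
  apply inv_eq_tmr_of_nonalt hD rfl hf hs hM hr.le
  by_cases hd : ∀ i, M i i = 0
  · exfalso
    have := alt_rank_even _ M hs hd hr
    rw [← Nat.not_even_iff_odd] at ht
    exact ht this
  · push Not at hd
    obtain ⟨i, hi⟩ := hd
    right
    exact ⟨Pi.single i 1, by rw [quad_single]; exact zmod2_ne_zero hi⟩

/-- pull back -/
def pb {V W : Type} (D : V → V → Prop) (e : W → V) : W → W → Prop := fun a b => D (e a) (e b)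

lemma pb_tour {V W : Type} {D : V → V → Prop} (hD : IsTour D) {e : W → V}
    (he : Function.Injective e) : IsTour (pb D e) := by
  refine ⟨fun u => hD.1 _, fun u v h => hD.2 _ _ (fun h2 => h (he h2))⟩

lemma pb_inv {V W : Type} [DecidableEq V] [DecidableEq W] [Fintype W] {D : V → V → Prop}
    (e : W → V) {k : ℕ} (hk : k ∈ InvSet D) : k ∈ InvSet (pb D e) := by
  obtain ⟨X, f, hf⟩ := hk
  refine ⟨fun i => Finset.univ.filter (fun w => e w ∈ X i), fun w => f (e w), ?_⟩
  intro u v h
  apply hf (e u) (e v)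
  simpa [pb] using h

lemma pb_tmr {V W : Type} [DecidableEq V] [DecidableEq W] [Fintype V] [Fintype W]
    {D : V → V → Prop}
    {e : W → V} (he : Function.Injective e) {k : ℕ} (hk : k ∈ TmrSet D) :
    ∃ r ≤ k, r ∈ TmrSet (pb D e) := by
  obtain ⟨f, hf, M, hs, hM, hr⟩ := hk
  refine ⟨(M.submatrix e e).rank, ?_, fun w => f (e w), hf.comp he, M.submatrix e e, ?_, ?_, rfl⟩
  · rw [← hr]; exact Matrix.rank_submatrix_le _ _ _
  · exact hs.submatrix e
  · intro u v hne
    exact hM (e u) (e v) (fun h => hne (he h))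

/-- Vertex insertion: given a matrix for `D` minus vertex `0`, get a non-alternating matrix for `D`
with rank at most two more. -/
lemma insert_vertex {n : ℕ} {D : Fin (n+1) → Fin (n+1) → Prop} (hD : IsTour D)
    {r : ℕ} (hr : r ∈ TmrSet (pb D Fin.succ)) :
    ∃ f : Fin (n+1) → ℕ, Function.Injective f ∧ ∃ M : Matrix (Fin (n+1)) (Fin (n+1)) (ZMod 2),
      M.IsSymm ∧
      (∀ u v, u ≠ v → (M u v = 1 ↔ ((D u v ∧ f v < f u) ∨ (D v u ∧ f u < f v)))) ∧
      M.rank ≤ r + 2 ∧ M 0 0 = 1 := by
  classical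
  obtain ⟨g, hg, N, hs, hN, hr⟩ := hr
  -- order: put 0 first
  set f : Fin (n+1) → ℕ := Fin.cons 0 (fun i => g i + 1) with hfdef
  have hf0 : f 0 = 0 := rfl
  have hfs : ∀ i : Fin n, f i.succ = g i + 1 := fun i => rfl
  set c : Fin n → ZMod 2 := fun i => if D i.succ 0 then 1 else 0 with hc
  set w : Fin (n+1) → ZMod 2 := Fin.cons 1 c with hw
  set w' : Fin (n+1) → ZMod 2 := Fin.cons 0 c with hw'
  set e0 : Fin (n+1) → ZMod 2 := Fin.cons 1 (fun _ => 0) with he0
  set P : Matrix (Fin (n+1)) (Fin n) (ZMod 2) :=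
    Matrix.of (fun i j => if i = j.succ then 1 else 0) with hP
  set M : Matrix (Fin (n+1)) (Fin (n+1)) (ZMod 2) :=
    P * N * Pᵀ + (Matrix.vecMulVec e0 w + Matrix.vecMulVec w' e0) with hMdef
  have hPN : ∀ i j : Fin n, (P * N * Pᵀ) i.succ j.succ = N i j := by
    intro i j
    rw [Matrix.mul_apply]
    simp [hP, Matrix.mul_apply]
  have hPN0 : ∀ j, (P * N * Pᵀ) 0 j = 0 := by
    intro j
    rw [Matrix.mul_apply]
    apply Finset.sum_eq_zero
    intro k _
    rw [Matrix.mul_apply]
    have : ∑ l, P 0 l * N l k = 0 := by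
      apply Finset.sum_eq_zero
      intro l _
      have : P 0 l = 0 := by
        simp only [hP, Matrix.of_apply]
        rw [if_neg (Fin.succ_ne_zero l).symm]
      rw [this, zero_mul]
    rw [this, zero_mul]
  have hPN1 : ∀ j, (P * N * Pᵀ) j 0 = 0 := by
    intro j
    rw [Matrix.mul_apply]
    apply Finset.sum_eq_zero
    intro k _
    have : Pᵀ k 0 = 0 := by
      simp only [hP, Matrix.transpose_apply, Matrix.of_apply]
      rw [if_neg (Fin.succ_ne_zero k).symm]
    rw [this, mul_zero]
  have hM00 : M 0 0 = 1 := by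
    rw [hMdef, Matrix.add_apply, Matrix.add_apply, hPN0, Matrix.vecMulVec_apply,
      Matrix.vecMulVec_apply]
    simp [he0, hw, hw']
  have hM0s : ∀ i : Fin n, M 0 i.succ = c i := by
    intro i
    rw [hMdef, Matrix.add_apply, Matrix.add_apply, hPN0, Matrix.vecMulVec_apply,
      Matrix.vecMulVec_apply]
    simp [he0, hw, hw']
  have hMs0 : ∀ i : Fin n, M i.succ 0 = c i := by
    intro i
    rw [hMdef, Matrix.add_apply, Matrix.add_apply, hPN1, Matrix.vecMulVec_apply,
      Matrix.vecMulVec_apply]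
    simp [he0, hw, hw']
  have hMss : ∀ i j : Fin n, M i.succ j.succ = N i j := by
    intro i j
    rw [hMdef, Matrix.add_apply, Matrix.add_apply, hPN, Matrix.vecMulVec_apply,
      Matrix.vecMulVec_apply]
    simp [he0]
  refine ⟨f, ?_, M, ?_, ?_, ?_, hM00⟩
  · intro i j hij
    induction i using Fin.cases with
    | zero =>
      induction j using Fin.cases with
      | zero => rfl
      | succ j => rw [hf0, hfs] at hij; omega
    | succ i =>
      induction j using Fin.cases with
      | zero => rw [hf0, hfs] at hij; omega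
      | succ j =>
        rw [hfs, hfs] at hij
        rw [hg (by omega : g i = g j)]
  · ext i j
    rw [Matrix.transpose_apply]
    induction i using Fin.cases with
    | zero =>
      induction j using Fin.cases with
      | zero => rfl
      | succ j => rw [hM0s, hMs0]
    | succ i =>
      induction j using Fin.cases with
      | zero => rw [hM0s, hMs0]
      | succ j => rw [hMss, hMss]; exact hs.apply i j
  · intro u v hne
    induction u using Fin.cases with
    | zero =>
      induction v using Fin.cases with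
      | zero => exact absurd rfl hne
      | succ j =>
        rw [hM0s, hf0, hfs]
        simp only [hc]
        by_cases h : D j.succ 0
        · simp [h]
        · simp [h]
    | succ i =>
      induction v using Fin.cases with
      | zero =>
        rw [hMs0, hf0, hfs]
        simp only [hc]
        by_cases h : D i.succ 0
        · simp [h]
        · simp [h]
      | succ j =>
        rw [hMss, hfs, hfs]
        rw [hN i j (fun h => hne (by rw [h]))]
        simp only [pb]
        constructor
        · rintro (⟨h1, h2⟩ | ⟨h1, h2⟩)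
          · exact Or.inl ⟨h1, by omega⟩
          · exact Or.inr ⟨h1, by omega⟩
        · rintro (⟨h1, h2⟩ | ⟨h1, h2⟩)
          · exact Or.inl ⟨h1, by omega⟩
          · exact Or.inr ⟨h1, by omega⟩
  · calc M.rank ≤ (P * N * Pᵀ).rank + (Matrix.vecMulVec e0 w + Matrix.vecMulVec w' e0).rank :=
        rank_add_le' _ _
      _ ≤ (P * N * Pᵀ).rank + ((Matrix.vecMulVec e0 w).rank + (Matrix.vecMulVec w' e0).rank) := by
        gcongr
        exact rank_add_le' _ _
      _ ≤ r + (1 + 1) := by
        gcongr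
        · calc (P * N * Pᵀ).rank ≤ (P * N).rank := Matrix.rank_mul_le_left _ _
            _ ≤ N.rank := Matrix.rank_mul_le_right _ _
            _ = r := hr
        · exact Matrix.rank_vecMulVec_le _ _
        · exact Matrix.rank_vecMulVec_le _ _
      _ = r + 2 := rfl

/-- every tournament has a subtournament with `inv = tmr` and nearly the same tmr. -/
lemma exists_good_sub : ∀ (n : ℕ) (D : Fin n → Fin n → Prop), IsTour D →
    ∃ (n' : ℕ) (e : Fin n' → Fin n), Function.Injective e ∧
      sInf (InvSet (pb D e)) = sInf (TmrSet (pb D e)) ∧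
      sInf (TmrSet D) ≤ sInf (TmrSet (pb D e)) + 1 := by
  intro n
  induction n with
  | zero =>
    intro D hD
    refine ⟨0, id, Function.injective_id, ?_, ?_⟩
    · have h1 : (0 : ℕ) ∈ InvSet (pb D id) := by
        refine ⟨fun i => i.elim0, fun i => i.elim0, fun u => u.elim0⟩
      obtain ⟨r, hr, hr2⟩ := inv_to_tmr (pb_tour hD Function.injective_id) h1
      have h2 : sInf (TmrSet (pb D id)) ≤ 0 := (Nat.sInf_le hr2).trans hr
      have h3 : sInf (InvSet (pb D id)) ≤ 0 := Nat.sInf_le h1
      omega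
    · have : pb D id = D := rfl
      rw [this]; omega
  | succ n ih =>
    intro D hD
    by_cases hgood : sInf (InvSet D) = sInf (TmrSet D)
    · refine ⟨n+1, id, Function.injective_id, ?_, ?_⟩
      · exact hgood
      · have : pb D id = D := rfl
        rw [this]; omega
    · set t := sInf (TmrSet D) with ht
      have hteven : Even t := by
        rw [← Nat.not_odd_iff_even]
        intro hodd
        exact hgood (inv_eq_tmr_of_odd hD hodd)
      have hD' : IsTour (pb D Fin.succ) := pb_tour hD (Fin.succ_injective n)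
      set t' := sInf (TmrSet (pb D Fin.succ)) with ht'
      have hle : t' ≤ t := by
        obtain ⟨r, hr, hr2⟩ := pb_tmr (Fin.succ_injective n) (Nat.sInf_mem (tmr_nonempty hD))
        exact (Nat.sInf_le hr2).trans hr
      have hge : t ≤ t' + 1 := by
        by_contra hcon
        push Not at hcon
        obtain ⟨f, hf, M, hs, hM, hr, h00⟩ :=
          insert_vertex hD (Nat.sInf_mem (tmr_nonempty hD'))
        apply hgood
        apply inv_eq_tmr_of_nonalt hD rfl hf hs hM
        · rw [← ht'] at hr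
          rw [← ht]
          omega
        · right
          exact ⟨Pi.single 0 1, by rw [quad_single]; exact h00⟩
      rcases Nat.lt_or_ge t' t with hlt | hge'
      · have hodd : Odd t' := by
          have : t = t' + 1 := by omega
          rw [this, Nat.even_add_one, Nat.not_even_iff_odd] at hteven
          exact hteven
        refine ⟨n, Fin.succ, Fin.succ_injective n, ?_, ?_⟩
        · exact inv_eq_tmr_of_odd hD' hodd
        · omega
      · obtain ⟨n', e, he, h1, h2⟩ := ih (pb D Fin.succ) hD'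
        refine ⟨n', Fin.succ ∘ e, (Fin.succ_injective n).comp he, ?_, ?_⟩
        · exact h1
        · have : pb D (Fin.succ ∘ e) = pb (pb D Fin.succ) e := rfl
          rw [this]
          omega

end Pool.Agent.Lib.MP_172ed5_co
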