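import Mathlib
import Pool.Agent.Lib.MP_172ed5_co.Tour

set_option autoImplicit false
set_option linter.unusedSectionVars false

namespace Pool.Agent.Lib.MP_172ed5_co

open Matrix

/-- codes `(S, F)` with `|S| = k` and `F` supported on pairs meeting `S`. -/
def SF (m k : ℕ) : Finset (Finset (Fin m) × (Sym2 (Fin m) → ZMod 2)) :=
  (Finset.powersetCard k (Finset.univ : Finset (Fin m))).biUnion (fun S =>
    (Fintype.piFinset (fun z : Sym2 (Fin m) =>
      if z ∈ (Sᶜ).sym2 then ({0} : Finset (ZMod 2)) else Finset.univ)).image (fun F => (S, F)))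

lemma card_SF (m k : ℕ) :
    (SF m k).card ≤ 2 ^ m * 2 ^ ((m+1).choose 2 - (m-k+1).choose 2) := by
  unfold SF
  refine Finset.card_biUnion_le.trans ?_
  have h : ∀ S ∈ Finset.powersetCard k (Finset.univ : Finset (Fin m)),
      ((Fintype.piFinset (fun z : Sym2 (Fin m) =>
      if z ∈ (Sᶜ).sym2 then ({0} : Finset (ZMod 2)) else Finset.univ)).image
        (fun F => (S, F))).card ≤ 2 ^ ((m+1).choose 2 - (m-k+1).choose 2) := by
    intro S hS
    rw [Finset.mem_powersetCard] at hS
    refine Finset.card_image_le.trans ?_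
    rw [Fintype.card_piFinset]
    have h1 : ∀ z : Sym2 (Fin m),
      (if z ∈ (Sᶜ).sym2 then ({0} : Finset (ZMod 2)) else Finset.univ).card =
        if z ∈ (Sᶜ).sym2 then 1 else 2 := by
      intro z
      split_ifs <;> simp [ZMod.card]
    simp only [h1]
    rw [Finset.prod_ite]
    simp only [Finset.prod_const_one, one_mul, Finset.prod_const]
    apply Nat.pow_le_pow_right (by norm_num)
    have h2 : (Finset.univ.filter (fun z : Sym2 (Fin m) => ¬ z ∈ (Sᶜ).sym2)) =
      Finset.univ \ (Sᶜ).sym2 := by
      ext z; simp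
    rw [h2, Finset.card_univ_sdiff, Finset.card_sym2, Sym2.card, Finset.card_compl]
    simp [hS.2]
  refine (Finset.sum_le_card_nsmul _ _ _ h).trans ?_
  rw [smul_eq_mul, Finset.card_powersetCard]
  gcongr
  simp only [Finset.card_univ, Fintype.card_fin]
  exact Nat.choose_le_two_pow _ _

/-- decoding -/
def decP {m : ℕ} (p : Finset (Fin m) × (Sym2 (Fin m) → ZMod 2)) : Matrix (Fin m) (Fin m) (ZMod 2) :=
  Matrix.of (fun i s => if s ∈ p.1 then (if i ∈ p.1 then (if i = s then 1 else 0) else p.2 s(i, s))
    else 0)

def decN {m : ℕ} (p : Finset (Fin m) × (Sym2 (Fin m) → ZMod 2)) : Matrix (Fin m) (Fin m) (ZMod 2) :=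
  Matrix.of (fun s s' => if s ∈ p.1 ∧ s' ∈ p.1 then p.2 s(s, s') else 0)

def decM {m : ℕ} (p : Finset (Fin m) × (Sym2 (Fin m) → ZMod 2)) : Matrix (Fin m) (Fin m) (ZMod 2) :=
  decP p * decN p * (decP p)ᵀ

/-- Rows of a matrix of rank at most `k` are spanned by `k` rows. -/
lemma exists_spanning_rows {m k : ℕ} (hk : k ≤ m) (M : Matrix (Fin m) (Fin m) (ZMod 2))
    (hr : M.rank ≤ k) : ∃ S : Finset (Fin m), S.card = k ∧ ∀ i, ∃ c : Fin m → ZMod 2,
      ∀ j, ∑ s ∈ S, c s * M s j = M i j := by
  classical
  obtain ⟨κ, a, ha, hspan, hli⟩ := exists_linearIndependent' (ZMod 2) M.row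
  have : Finite κ := Finite.of_injective a ha
  have : Fintype κ := Fintype.ofFinite κ
  have hcard : Fintype.card κ ≤ k := by
    rw [← finrank_span_eq_card hli, hspan, ← Matrix.rank_eq_finrank_span_row]
    exact hr
  have h0 : (Finset.univ.image a).card ≤ k := Finset.card_image_le.trans (by simpa using hcard)
  obtain ⟨S, hS1, hS2⟩ := Finset.exists_superset_card_eq h0 (by simpa using hk)
  refine ⟨S, hS2, ?_⟩
  intro i
  have h1 : M.row i ∈ Submodule.span (ZMod 2) (M.row '' (S : Set (Fin m))) := by
    have h2 : M.row i ∈ Submodule.span (ZMod 2) (Set.range M.row) :=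
      Submodule.subset_span ⟨i, rfl⟩
    rw [← hspan] at h2
    refine Submodule.span_mono ?_ h2
    rintro _ ⟨x, rfl⟩
    exact ⟨a x, hS1 (Finset.mem_image_of_mem a (Finset.mem_univ x)), rfl⟩
  rw [Submodule.mem_span_image_finset_iff_exists_fun] at h1
  obtain ⟨c, hc⟩ := h1
  refine ⟨fun s => if h : s ∈ S then c ⟨s, h⟩ else 0, ?_⟩
  intro j
  have h3 := congrFun hc j
  rw [← Finset.sum_coe_sort S]
  simp only [Finset.sum_apply, Pi.smul_apply, smul_eq_mul, Matrix.row] at h3
  rw [← h3]
  apply Finset.sum_congr rfl
  intro s _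
  simp

lemma decM_surj {m k : ℕ} (hk : k ≤ m) (M : Matrix (Fin m) (Fin m) (ZMod 2)) (hs : M.IsSymm)
    (hr : M.rank ≤ k) : ∃ p ∈ SF m k, decM p = M := by
  classical
  obtain ⟨S, hS, hspan⟩ := exists_spanning_rows hk M hr
  choose Q hQ using hspan
  let F0 : Fin m → Fin m → ZMod 2 := fun a b =>
    if a ∈ S ∧ b ∈ S then M a b else if a ∉ S ∧ b ∈ S then Q a b
      else if a ∈ S ∧ b ∉ S then Q b a else 0
  have hF0 : ∀ a b, F0 a b = F0 b a := by
    intro a b
    simp only [F0]
    by_cases ha : a ∈ S <;> by_cases hb : b ∈ S <;> simp [ha, hb]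
    exact (hs.apply a b).symm
  let F : Sym2 (Fin m) → ZMod 2 := Sym2.lift ⟨F0, hF0⟩
  have hF : ∀ a b, F s(a, b) = F0 a b := fun a b => rfl
  refine ⟨(S, F), ?_, ?_⟩
  · unfold SF
    rw [Finset.mem_biUnion]
    refine ⟨S, ?_, ?_⟩
    · rw [Finset.mem_powersetCard]; exact ⟨Finset.subset_univ _, hS⟩
    · rw [Finset.mem_image]
      refine ⟨F, ?_, rfl⟩
      rw [Fintype.mem_piFinset]
      intro z
      split_ifs with h
      · rw [Finset.mem_singleton]
        induction z using Sym2.inductionOn with
        | _ a b =>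
          rw [Finset.mem_sym2_iff] at h
          have ha : a ∉ S := by
            have := h a (Sym2.mem_mk_left a b)
            simpa using this
          have hb : b ∉ S := by
            have := h b (Sym2.mem_mk_right a b)
            simpa using this
          rw [hF]
          simp [F0, ha, hb]
      · exact Finset.mem_univ _
  · -- P M = M
    set P := decP (S, F) with hP
    have hPapply : ∀ i s, P i s = if s ∈ S then (if i ∈ S then (if i = s then 1 else 0) else Q i s)
        else 0 := by
      intro i s
      rw [hP]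
      simp only [decP, Matrix.of_apply]
      by_cases h1 : s ∈ S
      · by_cases h2 : i ∈ S
        · simp [h1, h2]
        · simp only [h1, h2, if_true, if_false]
          rw [hF]
          simp [F0, h1, h2]
      · simp [h1]
    have hPM : P * M = M := by
      ext i j
      rw [Matrix.mul_apply]
      have h1 : ∀ s, P i s * M s j = if s ∈ S then (if i ∈ S then (if i = s then M s j else 0)
        else Q i s * M s j) else 0 := by
        intro s
        rw [hPapply]
        split_ifs <;> simp
      simp only [h1]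
      rw [Finset.sum_ite_mem, Finset.univ_inter]
      by_cases hi : i ∈ S
      · simp [hi]
      · simp only [hi, if_false]
        exact hQ i j
    have hMP : M * Pᵀ = M := by
      have := congrArg Matrix.transpose hPM
      rw [Matrix.transpose_mul, hs.eq] at this
      exact this
    have hN : P * decN (S, F) * Pᵀ = P * M * Pᵀ := by
      ext i j
      rw [Matrix.mul_apply, Matrix.mul_apply]
      apply Finset.sum_congr rfl
      intro t _
      by_cases ht : t ∈ S
      · congr 1
        rw [Matrix.mul_apply, Matrix.mul_apply]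
        apply Finset.sum_congr rfl
        intro s _
        by_cases hs' : s ∈ S
        · congr 1
          simp only [decN, Matrix.of_apply, hs', ht, and_self, if_true]
          rw [hF]
          simp [F0, hs', ht]
        · have : P i s = 0 := by rw [hPapply, if_neg hs']
          rw [this, zero_mul, zero_mul]
      · have : Pᵀ t j = 0 := by rw [Matrix.transpose_apply, hPapply, if_neg ht]
        rw [this, mul_zero, mul_zero]
    unfold decM
    rw [← hP, hN, hPM, hMP]

/-- the tournament of a symmetric matrix w.r.t. the natural order. -/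
def DG {m : ℕ} (G : Matrix (Fin m) (Fin m) (ZMod 2)) : Fin m → Fin m → Prop :=
  fun u v => (u < v ∧ G u v = 0) ∨ (v < u ∧ G u v = 1)

lemma DG_tour {m : ℕ} {G : Matrix (Fin m) (Fin m) (ZMod 2)} (hG : G.IsSymm) : IsTour (DG G) := by
  refine ⟨fun u => ?_, fun u v hne => ?_⟩
  · simp [DG]
  · have hs : G v u = G u v := hG.apply u v
    simp only [DG, hs]
    rcases lt_or_gt_of_ne hne with h | h
    · have h' : ¬ v < u := not_lt.mpr h.le
      simp only [h, h', true_and, false_and, or_false, false_or]
      constructor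
      · intro h0 h1; rw [h0] at h1; exact zero_ne_one h1
      · exact zmod2_ne_one
    · have h' : ¬ u < v := not_lt.mpr h.le
      simp only [h, h', true_and, false_and, or_false, false_or]
      constructor
      · intro h0 h1; rw [h1] at h0; exact zero_ne_one h0
      · exact zmod2_ne_zero

def decG {m : ℕ} (q : (Fin m → Fin m) × ((Finset (Fin m) × (Sym2 (Fin m) → ZMod 2)) ×
    (Fin m → ZMod 2))) : Matrix (Fin m) (Fin m) (ZMod 2) :=
  Matrix.of (fun u v => if u = v then q.2.2 u else decM q.2.1 u v +
    (if (u < v ∧ q.1 v < q.1 u) ∨ (v < u ∧ q.1 u < q.1 v) then 1 else 0))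

lemma exists_rank_fun {m : ℕ} (f : Fin m → ℕ) (hf : Function.Injective f) :
    ∃ g : Fin m → Fin m, ∀ u v, f u < f v ↔ g u < g v := by
  classical
  have hlt : ∀ u : Fin m, (Finset.univ.filter (fun w => f w < f u)).card < m := by
    intro u
    have : (Finset.univ.filter (fun w => f w < f u)) ⊂ (Finset.univ : Finset (Fin m)) := by
      rw [Finset.ssubset_univ_iff]
      intro h
      have h2 : u ∈ (Finset.univ.filter (fun w => f w < f u)) := by rw [h]; exact Finset.mem_univ u
      simp at h2
    have := Finset.card_lt_card this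
    simpa using this
  have key : ∀ u v, f u < f v → (Finset.univ.filter (fun w => f w < f u)).card <
      (Finset.univ.filter (fun w => f w < f v)).card := by
    intro u v h
    apply Finset.card_lt_card
    rw [Finset.ssubset_iff_of_subset]
    · exact ⟨u, by simp [h], by simp⟩
    · intro w hw
      simp only [Finset.mem_filter, Finset.mem_univ, true_and] at hw ⊢
      omega
  refine ⟨fun u => ⟨(Finset.univ.filter (fun w => f w < f u)).card, hlt u⟩, ?_⟩
  intro u v
  simp only [Fin.mk_lt_mk]
  constructor
  · exact key u v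
  · intro h
    by_contra hcon
    rcases Nat.lt_or_ge (f v) (f u) with h1 | h1
    · have := key v u h1; omega
    · have h2 : f u = f v := by omega
      have := hf h2
      subst this
      exact lt_irrefl _ h

lemma bad_mem {m k : ℕ} (hk : k ≤ m) {G : Matrix (Fin m) (Fin m) (ZMod 2)} (hG : G.IsSymm)
    {r : ℕ} (hr : r ≤ k) (hmem : r ∈ TmrSet (DG G)) :
    ∃ q ∈ (Finset.univ : Finset (Fin m → Fin m)) ×ˢ (SF m k ×ˢ (Finset.univ :
      Finset (Fin m → ZMod 2))), decG q = G := by
  obtain ⟨f, hf, M, hs, hM, hrank⟩ := hmem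
  obtain ⟨g, hg⟩ := exists_rank_fun f hf
  obtain ⟨p, hp, hpM⟩ := decM_surj hk M hs (by omega)
  refine ⟨(g, (p, fun u => G u u)), ?_, ?_⟩
  · simp [hp]
  · ext u v
    simp only [decG, Matrix.of_apply]
    split_ifs with h1 h2
    · subst h1; rfl
    · -- flipped
      rw [hpM]
      have hM' := hM u v h1
      simp only [hg] at hM'
      have hsym : G v u = G u v := hG.apply u v
      rcases h2 with ⟨ha, hb⟩ | ⟨ha, hb⟩
      · have na : ¬ v < u := not_lt.mpr ha.le
        have nb : ¬ g u < g v := not_lt.mpr hb.le
        simp only [DG, ha, na, hb, nb, true_and, false_and, or_false, and_true,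
          and_false] at hM'
        by_cases h0 : G u v = 0
        · rw [hM'.2 h0, h0]; decide
        · have h00 : M u v = 0 := zmod2_ne_one (fun h => h0 (hM'.1 h))
          rw [h00, zmod2_ne_zero h0]; decide
      · have na : ¬ u < v := not_lt.mpr ha.le
        have nb : ¬ g v < g u := not_lt.mpr hb.le
        simp only [DG, ha, na, hb, nb, true_and, false_and, or_false, false_or, and_true,
          and_false, hsym] at hM'
        by_cases h0 : G u v = 0
        · rw [hM'.2 h0, h0]; decide
        · have h00 : M u v = 0 := zmod2_ne_one (fun h => h0 (hM'.1 h))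
          rw [h00, zmod2_ne_zero h0]; decide
    · rw [hpM, add_zero]
      have hM' := hM u v h1
      simp only [hg] at hM'
      have hsym : G v u = G u v := hG.apply u v
      have hgne : g u ≠ g v := by
        intro h
        have e1 := hg u v
        have e2 := hg v u
        rw [h] at e1 e2
        simp only [lt_self_iff_false, iff_false, not_lt] at e1 e2
        exact h1 (hf (le_antisymm e2 e1))
      push Not at h2
      rcases lt_or_gt_of_ne h1 with ha | ha
      · have hb : g u < g v := lt_of_le_of_ne (h2.1 ha) hgne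
        have na : ¬ v < u := not_lt.mpr ha.le
        have nb : ¬ g v < g u := not_lt.mpr hb.le
        simp only [DG, ha, na, hb, nb, true_and, false_and, or_false, false_or, and_true,
          and_false, hsym] at hM'
        by_cases h0 : G u v = 1
        · rw [hM'.2 h0, h0]
        · rw [zmod2_ne_one h0]; exact zmod2_ne_one (fun h => h0 (hM'.1 h))
      · have hb : g v < g u := lt_of_le_of_ne (h2.2 ha) (fun h => hgne h.symm)
        have na : ¬ u < v := not_lt.mpr ha.le
        have nb : ¬ g u < g v := not_lt.mpr hb.le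
        simp only [DG, ha, na, hb, nb, true_and, false_and, or_false, false_or, and_true,
          and_false, hsym] at hM'
        by_cases h0 : G u v = 1
        · rw [hM'.2 h0, h0]
        · rw [zmod2_ne_one h0]; exact zmod2_ne_one (fun h => h0 (hM'.1 h))

/-- Counting lemma. -/
lemma count_bad {m k : ℕ} (hk : k ≤ m) {E : Type} [Fintype E] [DecidableEq E]
    (Φ : E → Matrix (Fin m) (Fin m) (ZMod 2)) (hΦ : Function.Injective Φ)
    (hsymm : ∀ c, (Φ c).IsSymm) (bad : Finset E)
    (hbad : ∀ c ∈ bad, ∃ r ≤ k, r ∈ TmrSet (DG (Φ c))) :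
    bad.card ≤ m ^ m * ((2 ^ m * 2 ^ ((m+1).choose 2 - (m-k+1).choose 2)) * 2 ^ m) := by
  classical
  set Q := (Finset.univ : Finset (Fin m → Fin m)) ×ˢ (SF m k ×ˢ (Finset.univ :
      Finset (Fin m → ZMod 2))) with hQ
  have h1 : (bad.image Φ) ⊆ Q.image decG := by
    intro G hGm
    rw [Finset.mem_image] at hGm
    obtain ⟨c, hc, rfl⟩ := hGm
    obtain ⟨r, hr, hr2⟩ := hbad c hc
    obtain ⟨q, hq, hq2⟩ := bad_mem hk (hsymm c) hr hr2
    rw [Finset.mem_image]
    exact ⟨q, hq, hq2⟩
  have h2 : (bad.image Φ).card = bad.card := Finset.card_image_of_injective _ hΦ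
  rw [← h2]
  refine (Finset.card_le_card h1).trans (Finset.card_image_le.trans ?_)
  rw [hQ, Finset.card_product, Finset.card_product]
  gcongr
  · simp
  · exact card_SF m k
  · simp [ZMod.card]

end Pool.Agent.Lib.MP_172ed5_co
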