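import Mathlib
import Pool.Agent.Lib.MP_172ed5_co.Count

set_option autoImplicit false
set_option linter.unusedSectionVars false

namespace Pool.Agent.Lib.MP_172ed5_co

open Matrix

/-- parameters: strictly lower triangular entries -/
abbrev Par (m : ℕ) : Type := (Σ i : Fin m, Fin i) → ZMod 2

lemma card_par (m : ℕ) : Fintype.card (Par m) = 2 ^ (m * (m - 1) / 2) := by
  rw [Fintype.card_fun, ZMod.card, Fintype.card_sigma]
  congr 1
  simp only [Fintype.card_fin]
  rw [Fin.sum_univ_eq_sum_range (fun i => i) m, Finset.sum_range_id]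

/-- lower unitriangular matrix -/
def Cm {m : ℕ} (c : Par m) : Matrix (Fin m) (Fin m) (ZMod 2) :=
  Matrix.of (fun i j => if h : j < i then c ⟨i, ⟨j, h⟩⟩ else if i = j then 1 else 0)

lemma Cm_diag {m : ℕ} (c : Par m) (i : Fin m) : Cm c i i = 1 := by
  simp [Cm]

lemma Cm_upper {m : ℕ} (c : Par m) {i j : Fin m} (h : i < j) : Cm c i j = 0 := by
  have h1 : ¬ j < i := not_lt.mpr h.le
  simp [Cm, h1, h.ne]

lemma Cm_lower {m : ℕ} (c : Par m) {i j : Fin m} (h : j < i) : Cm c i j = c ⟨i, ⟨j, h⟩⟩ := by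
  simp [Cm, h]

lemma Cm_det {m : ℕ} (c : Par m) : (Cm c).det = 1 := by
  rw [Matrix.det_of_isLowerTriangular]
  · simp [Cm_diag]
  · intro i j hij
    apply Cm_upper
    simpa using hij

lemma Cm_inj {m : ℕ} {c c' : Par m} (h : Cm c * (Cm c)ᵀ = Cm c' * (Cm c')ᵀ) : c = c' := by
  have key : ∀ (n : ℕ) (j : Fin m), (j : ℕ) = n → ∀ i, Cm c i j = Cm c' i j := by
    intro n
    induction n using Nat.strong_induction_on with
    | _ n ih =>
      intro j hj i
      rcases lt_trichotomy i j with hij | hij | hij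
      · rw [Cm_upper c hij, Cm_upper c' hij]
      · subst hij; rw [Cm_diag, Cm_diag]
      · have expand : ∀ d : Par m, (Cm d * (Cm d)ᵀ) i j =
            (∑ l ∈ Finset.univ.filter (fun l => l < j), Cm d i l * Cm d j l) + Cm d i j := by
          intro d
          rw [Matrix.mul_apply, ← Finset.sum_filter_add_sum_filter_not Finset.univ (fun l => l < j)]
          congr 1
          rw [Finset.sum_eq_single j]
          · rw [Matrix.transpose_apply, Cm_diag, mul_one]
          · intro l hl hlj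
            simp only [Finset.mem_filter, Finset.mem_univ, true_and, not_lt] at hl
            rw [Matrix.transpose_apply, Cm_upper d (lt_of_le_of_ne hl (Ne.symm hlj)), mul_zero]
          · intro hl
            simp at hl
        have e := congrFun (congrFun h i) j
        rw [expand c, expand c'] at e
        have e2 : (∑ l ∈ Finset.univ.filter (fun l => l < j), Cm c i l * Cm c j l) =
            (∑ l ∈ Finset.univ.filter (fun l => l < j), Cm c' i l * Cm c' j l) := by
          apply Finset.sum_congr rfl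
          intro l hl
          simp only [Finset.mem_filter, Finset.mem_univ, true_and] at hl
          have hl' : (l : ℕ) < n := by rw [← hj]; exact hl
          rw [ih l hl' l rfl i, ih l hl' l rfl j]
        rw [e2] at e
        exact add_left_cancel e
  ext ⟨i, j⟩
  have hj : (⟨j, lt_trans j.2 i.2⟩ : Fin m) < i := j.2
  have := key _ ⟨j, lt_trans j.2 i.2⟩ rfl i
  rw [Cm_lower c hj, Cm_lower c' hj] at this
  exact this

/-- the all-ones lower triangular matrix -/
def Lm (m : ℕ) : Matrix (Fin m) (Fin m) (ZMod 2) :=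
  Matrix.of (fun i j => if j ≤ i then 1 else 0)

lemma Lm_det (m : ℕ) : (Lm m).det = 1 := by
  rw [Matrix.det_of_isLowerTriangular]
  · simp [Lm]
  · intro i j hij
    have hij' : i < j := by simpa using hij
    simp [Lm, hij']

/-- second representation -/
noncomputable def Ym {m : ℕ} (c : Par m) : Matrix (Fin m) (Fin m) (ZMod 2) :=
  (Lm m)ᵀ * ((Cm c)⁻¹)ᵀ

lemma Cm_mul_Ym {m : ℕ} (c : Par m) : Cm c * (Ym c)ᵀ = Lm m := by
  unfold Ym
  rw [Matrix.transpose_mul, Matrix.transpose_transpose, Matrix.transpose_transpose,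
    ← Matrix.mul_assoc, Matrix.mul_nonsing_inv _ (by rw [Cm_det]; exact isUnit_one),
    Matrix.one_mul]

lemma Ym_inj {m : ℕ} {c c' : Par m} (h : Ym c * (Ym c)ᵀ = Ym c' * (Ym c')ᵀ) : c = c' := by
  apply Cm_inj
  have hL : IsUnit (Lm m).det := by rw [Lm_det]; exact isUnit_one
  have hLT : IsUnit (Lm m)ᵀ.det := by rw [Matrix.det_transpose]; exact hL
  have expand : ∀ d : Par m, Ym d * (Ym d)ᵀ =
      (Lm m)ᵀ * (((Cm d)⁻¹)ᵀ * (Cm d)⁻¹) * Lm m := by
    intro d
    unfold Ym
    rw [Matrix.transpose_mul, Matrix.transpose_transpose, Matrix.transpose_transpose]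
    simp only [Matrix.mul_assoc]
  have hX : ((Cm c)⁻¹)ᵀ * (Cm c)⁻¹ = ((Cm c')⁻¹)ᵀ * (Cm c')⁻¹ := by
    rw [expand, expand] at h
    have h1 := congrArg (fun Z => Z * (Lm m)⁻¹) h
    simp only [Matrix.mul_assoc, Matrix.mul_nonsing_inv _ hL, Matrix.mul_one] at h1
    have h2 := congrArg (fun Z => ((Lm m)ᵀ)⁻¹ * Z) h1
    simp only [← Matrix.mul_assoc, Matrix.nonsing_inv_mul _ hLT, Matrix.one_mul] at h2
    exact h2
  have inv1 : ∀ d : Par m, (((Cm d)⁻¹)ᵀ * (Cm d)⁻¹) * (Cm d * (Cm d)ᵀ) = 1 := by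
    intro d
    have hd : IsUnit (Cm d).det := by rw [Cm_det]; exact isUnit_one
    rw [Matrix.mul_assoc, ← Matrix.mul_assoc (Cm d)⁻¹, Matrix.nonsing_inv_mul _ hd,
      Matrix.one_mul, ← Matrix.transpose_mul, Matrix.mul_nonsing_inv _ hd, Matrix.transpose_one]
  have inv2 : ∀ d : Par m, (Cm d * (Cm d)ᵀ) * (((Cm d)⁻¹)ᵀ * (Cm d)⁻¹) = 1 := by
    intro d
    exact mul_eq_one_comm.mp (inv1 d)
  calc Cm c * (Cm c)ᵀ = (Cm c * (Cm c)ᵀ) * ((((Cm c')⁻¹)ᵀ * (Cm c')⁻¹) * (Cm c' * (Cm c')ᵀ)) := by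
        rw [inv1, Matrix.mul_one]
    _ = ((Cm c * (Cm c)ᵀ) * (((Cm c)⁻¹)ᵀ * (Cm c)⁻¹)) * (Cm c' * (Cm c')ᵀ) := by
        rw [← hX]; simp only [Matrix.mul_assoc]
    _ = Cm c' * (Cm c')ᵀ := by rw [inv2, Matrix.one_mul]

lemma mul_transpose_symm {m k : ℕ} (A : Matrix (Fin m) (Fin k) (ZMod 2)) : (A * Aᵀ).IsSymm := by
  rw [Matrix.IsSymm, Matrix.transpose_mul, Matrix.transpose_transpose]

/-- dijoin -/
def Dij {V W : Type} (D₁ : V → V → Prop) (D₂ : W → W → Prop) : V ⊕ W → V ⊕ W → Prop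
  | Sum.inl a, Sum.inl b => D₁ a b
  | Sum.inr a, Sum.inr b => D₂ a b
  | Sum.inl _, Sum.inr _ => True
  | Sum.inr _, Sum.inl _ => False

/-- The interleaved dijoin needs only `m` inversions. -/
lemma dijoin_inv {m : ℕ} (c : Par m) :
    m ∈ InvSet (Dij (DG (Cm c * (Cm c)ᵀ)) (DG (Ym c * (Ym c)ᵀ))) := by
  set X : Fin m → Finset (Fin m ⊕ Fin m) := fun i => Finset.univ.filter (fun w =>
    Sum.elim (fun a => Cm c a i) (fun a => Ym c a i) w = 1) with hX
  refine ⟨X, Sum.elim (fun a => 2 * (a : ℕ) + 1) (fun a => 2 * (a : ℕ)), ?_⟩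
  have bool1 : ∀ (x : ZMod 2) (inst : Decidable (x = 1)),
      (@ite (ZMod 2) (x = 1) inst 1 0) = x := by
    intro x inst
    by_cases h : x = 1
    · simp [h]
    · rw [if_neg h, zmod2_ne_one h]
  have hll : ∀ a b : Fin m, (((Finset.univ.filter (fun i => (Sum.inl a : Fin m ⊕ Fin m) ∈ X i ∧
      (Sum.inl b : Fin m ⊕ Fin m) ∈ X i)).card : ℕ) : ZMod 2) = (Cm c * (Cm c)ᵀ) a b := by
    intro a b
    rw [cast_card_eq, Matrix.mul_apply, Matrix.mul_apply]
    apply Finset.sum_congr rfl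
    intro i _
    simp only [hX, Matrix.of_apply, Matrix.transpose_apply, Finset.mem_filter, Finset.mem_univ,
      true_and, Sum.elim_inl, Sum.elim_inr, bool1]
  have hrr : ∀ a b : Fin m, (((Finset.univ.filter (fun i => (Sum.inr a : Fin m ⊕ Fin m) ∈ X i ∧
      (Sum.inr b : Fin m ⊕ Fin m) ∈ X i)).card : ℕ) : ZMod 2) = (Ym c * (Ym c)ᵀ) a b := by
    intro a b
    rw [cast_card_eq, Matrix.mul_apply, Matrix.mul_apply]
    apply Finset.sum_congr rfl
    intro i _
    simp only [hX, Matrix.of_apply, Matrix.transpose_apply, Finset.mem_filter, Finset.mem_univ,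
      true_and, Sum.elim_inl, Sum.elim_inr, bool1]
  have hlr : ∀ a b : Fin m, (((Finset.univ.filter (fun i => (Sum.inl a : Fin m ⊕ Fin m) ∈ X i ∧
      (Sum.inr b : Fin m ⊕ Fin m) ∈ X i)).card : ℕ) : ZMod 2) = Lm m a b := by
    intro a b
    rw [← Cm_mul_Ym c, cast_card_eq, Matrix.mul_apply, Matrix.mul_apply]
    apply Finset.sum_congr rfl
    intro i _
    simp only [hX, Matrix.of_apply, Matrix.transpose_apply, Finset.mem_filter, Finset.mem_univ,
      true_and, Sum.elim_inl, Sum.elim_inr, bool1]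
  have hsymm : ∀ u v : Fin m ⊕ Fin m, (Finset.univ.filter (fun i => u ∈ X i ∧ v ∈ X i)) =
      (Finset.univ.filter (fun i => v ∈ X i ∧ u ∈ X i)) := by
    intro u v; ext i; simp [and_comm]
  intro u v h
  rcases u with a | a <;> rcases v with b | b
  · -- inl inl
    simp only [Sum.elim_inl, Sum.elim_inr]
    have hs : (Cm c * (Cm c)ᵀ) b a = (Cm c * (Cm c)ᵀ) a b := (mul_transpose_symm (Cm c)).apply a b
    rcases h with ⟨hd, hev⟩ | ⟨hd, hodd⟩
    · rw [← zmod2_cast_even, hll] at hev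
      simp only [Dij, DG, hev, and_true] at hd
      rcases hd with hd | hd
      · have : (a : ℕ) < b := hd
        omega
      · exact absurd hd.2 zero_ne_one
    · rw [← zmod2_cast_odd, hll] at hodd
      simp only [Dij, DG, hs, hodd, and_true] at hd
      rcases hd with hd | hd
      · exact absurd hd.2 one_ne_zero
      · have : (a : ℕ) < b := hd
        omega
  · -- inl inr
    simp only [Sum.elim_inl, Sum.elim_inr]
    rcases h with ⟨_, hev⟩ | ⟨hd, _⟩
    · rw [← zmod2_cast_even, hlr] at hev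
      simp only [Lm, Matrix.of_apply] at hev
      split_ifs at hev with hle
      · exact absurd hev one_ne_zero
      · have : (a : ℕ) < b := not_le.mp hle
        omega
    · exact absurd hd (by simp [Dij])
  · -- inr inl
    simp only [Sum.elim_inl, Sum.elim_inr]
    rcases h with ⟨hd, _⟩ | ⟨_, hodd⟩
    · exact absurd hd (by simp [Dij])
    · rw [hsymm, ← zmod2_cast_odd, hlr] at hodd
      simp only [Lm, Matrix.of_apply] at hodd
      split_ifs at hodd with hle
      · have : (a : ℕ) ≤ b := hle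
        omega
      · exact absurd hodd zero_ne_one
  · -- inr inr
    simp only [Sum.elim_inl, Sum.elim_inr]
    have hs : (Ym c * (Ym c)ᵀ) b a = (Ym c * (Ym c)ᵀ) a b := (mul_transpose_symm (Ym c)).apply a b
    rcases h with ⟨hd, hev⟩ | ⟨hd, hodd⟩
    · rw [← zmod2_cast_even, hrr] at hev
      simp only [Dij, DG, hev, and_true] at hd
      rcases hd with hd | hd
      · have : (a : ℕ) < b := hd
        omega
      · exact absurd hd.2 zero_ne_one
    · rw [← zmod2_cast_odd, hrr] at hodd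
      simp only [Dij, DG, hs, hodd, and_true] at hd
      rcases hd with hd | hd
      · exact absurd hd.2 one_ne_zero
      · have : (a : ℕ) < b := hd
        omega

lemma numeric : 2 * ((128 : ℕ) ^ 128 * ((2 ^ 128 * 2 ^ ((128+1).choose 2 - (128-65+1).choose 2)) *
    2 ^ 128)) < 2 ^ (128 * (128 - 1) / 2) := by
  have h1 : (128 + 1).choose 2 = 8256 := by simp [Nat.choose_two_right]
  have h2 : (128 - 65 + 1).choose 2 = 2016 := by simp [Nat.choose_two_right]
  rw [h1, h2]
  have h3 : (128 : ℕ) ^ 128 = 2 ^ 896 := by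
    calc (128 : ℕ) ^ 128 = (2 ^ 7) ^ 128 := by norm_num
      _ = 2 ^ (7 * 128) := by rw [← pow_mul]
      _ = 2 ^ 896 := by norm_num
  rw [h3]
  have h4 : 2 * ((2 : ℕ) ^ 896 * ((2 ^ 128 * 2 ^ (8256 - 2016)) * 2 ^ 128)) =
      2 ^ (1 + (896 + ((128 + (8256 - 2016)) + 128))) := by
    rw [pow_add 2 1, pow_add 2 896, pow_add 2 (128 + (8256 - 2016)), pow_add 2 128, pow_one]
  rw [h4]
  exact Nat.pow_lt_pow_right (by norm_num) (by norm_num)

/-- There is a parameter for which both tournaments have large tmr. -/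
lemma exists_par {m k : ℕ} (hk : k ≤ m)
    (hnum : 2 * (m ^ m * ((2 ^ m * 2 ^ ((m+1).choose 2 - (m-k+1).choose 2)) * 2 ^ m)) <
      2 ^ (m * (m - 1) / 2)) :
    ∃ c : Par m, k + 1 ≤ sInf (TmrSet (DG (Cm c * (Cm c)ᵀ))) ∧
    k + 1 ≤ sInf (TmrSet (DG (Ym c * (Ym c)ᵀ))) := by
  by_contra hcon
  push Not at hcon
  set bad1 : Finset (Par m) := Finset.univ.filter
    (fun c => sInf (TmrSet (DG (Cm c * (Cm c)ᵀ))) ≤ k) with hb1
  set bad2 : Finset (Par m) := Finset.univ.filter
    (fun c => sInf (TmrSet (DG (Ym c * (Ym c)ᵀ))) ≤ k) with hb2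
  have c1 := count_bad hk (fun c : Par m => Cm c * (Cm c)ᵀ)
    (fun c c' h => Cm_inj h) (fun c => mul_transpose_symm _) bad1 (by
      intro c hc
      rw [hb1, Finset.mem_filter] at hc
      exact ⟨_, hc.2, Nat.sInf_mem (tmr_nonempty (DG_tour (mul_transpose_symm (Cm c))))⟩)
  have c2 := count_bad hk (fun c : Par m => Ym c * (Ym c)ᵀ)
    (fun c c' h => Ym_inj h) (fun c => mul_transpose_symm _) bad2 (by
      intro c hc
      rw [hb2, Finset.mem_filter] at hc
      exact ⟨_, hc.2, Nat.sInf_mem (tmr_nonempty (DG_tour (mul_transpose_symm (Ym c))))⟩)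
  have hunion : (Finset.univ : Finset (Par m)) ⊆ bad1 ∪ bad2 := by
    intro c _
    rw [Finset.mem_union]
    by_cases h : k + 1 ≤ sInf (TmrSet (DG (Cm c * (Cm c)ᵀ)))
    · right
      rw [hb2, Finset.mem_filter]
      exact ⟨Finset.mem_univ _, Nat.lt_succ_iff.mp (hcon c h)⟩
    · left
      rw [hb1, Finset.mem_filter]
      exact ⟨Finset.mem_univ _, by omega⟩
  have h3 := Finset.card_le_card hunion
  rw [Finset.card_univ, card_par] at h3
  have h4 := Finset.card_union_le bad1 bad2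
  have h5 := h3.trans (h4.trans (Nat.add_le_add c1 c2))
  rw [← two_mul] at h5
  exact absurd hnum (not_lt.mpr h5)

lemma Dij_pb {V W V' W' : Type} (D₁ : V → V → Prop) (D₂ : W → W → Prop) (e : V' → V)
    (g : W' → W) : Dij (pb D₁ e) (pb D₂ g) = pb (Dij D₁ D₂) (Sum.map e g) := by
  funext u v
  rcases u with a | a <;> rcases v with b | b <;> rfl

/-- Main theorem in terms of our definitions. -/
theorem main : ∃ (n m : ℕ) (D₁ : Fin n → Fin n → Prop) (D₂ : Fin m → Fin m → Prop),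
    IsTour D₁ ∧ IsTour D₂ ∧ sInf (InvSet D₁) = sInf (TmrSet D₁) ∧
    sInf (InvSet D₂) = sInf (TmrSet D₂) ∧
    sInf (InvSet (Dij D₁ D₂)) < sInf (InvSet D₁) + sInf (InvSet D₂) := by
  obtain ⟨c, hc1, hc2⟩ := exists_par (m := 128) (k := 65) (by norm_num) numeric
  have ht1 : IsTour (DG (Cm c * (Cm c)ᵀ)) := DG_tour (mul_transpose_symm _)
  have ht2 : IsTour (DG (Ym c * (Ym c)ᵀ)) := DG_tour (mul_transpose_symm _)
  obtain ⟨n, e, he, h1, h1'⟩ := exists_good_sub _ _ ht1
  obtain ⟨m, g, hg, h2, h2'⟩ := exists_good_sub _ _ ht2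
  refine ⟨n, m, pb (DG (Cm c * (Cm c)ᵀ)) e, pb (DG (Ym c * (Ym c)ᵀ)) g, pb_tour ht1 he,
    pb_tour ht2 hg, h1, h2, ?_⟩
  have h3 : 128 ∈ InvSet (Dij (pb (DG (Cm c * (Cm c)ᵀ)) e) (pb (DG (Ym c * (Ym c)ᵀ)) g)) := by
    rw [Dij_pb]
    exact pb_inv _ (dijoin_inv c)
  have h4 := Nat.sInf_le h3
  rw [h1, h2]
  omega

end Pool.Agent.Lib.MP_172ed5_co
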